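import Pool.Agent.H.MP_32acdc_lc.D

set_option autoImplicit false

namespace Pool.Agent.Results.MP_32acdc_lc.Undec

open Pool.Agent.H.MP_32acdc_lc Pool.Agent.Lib.helper4.GFO Pool.Agent.Lib.helper21

theorem result : ¬∃ f : ℕ →. Bool, Partrec f ∧ ∀ φ : Fm 0, ∃ b ∈ f φ.code,
    (b = true ↔ ∀ (G : Type) [Group G], TreeFree G → φ.Sat G Fin.elim0) := by
  obtain ⟨Q, _, M, q, h⟩ := Queue.exists_cm0
  cases nonempty_fintype Q
  let r : Q → Fin (Finset.univ.sup M.reg + 1) := fun q => ⟨_, Nat.lt_succ_of_le (Finset.le_sup (Finset.mem_univ q))⟩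
  let c := Fintype.equivFin (Ix Q (Finset.univ.sup M.reg))
  refine undec (d_phi M r q c).exN.not _ h fun m φ e => ⟨fun a => by_contra fun b => ?_,
    fun a G _ _ => (e G).2 fun ⟨v, b⟩ => sound (fun _ => rfl) b a⟩
  obtain ⟨G, _, k, w, b⟩ := complete (r := r) (fun _ => rfl) b
  exact (e G).1 (a G k) ⟨w ∘ c.symm, by simpa using b⟩

end Pool.Agent.Results.MP_32acdc_lc.Undec
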